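import Mathlib

/-!
Counting homomorphic copies of blow-ups: a set of `κ`-tuples of density `p` contains all
transversals of a proportion `p ^ (s ^ κ)` of the `κ`-tuples of `s`-tuples.
-/

set_option autoImplicit false

namespace Pool.Agent.H562.RE

open Finset

open scoped Classical in
theorem card_cons {X : Type} [Fintype X] {κ : ℕ} (P : (Fin (κ + 1) → X) → Prop) :
    #{w : Fin (κ + 1) → X | P w} = ∑ x : X, #{w' : Fin κ → X | P (Fin.cons x w')} := by
  rw [Finset.card_filter]
  simp_rw [Finset.card_filter]
  rw [← Fintype.sum_prod_type' (f := fun (x : X) (w' : Fin κ → X) =>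
    if P (Fin.cons x w') then 1 else 0)]
  exact (Fintype.sum_equiv (Fin.consEquiv (fun _ : Fin (κ + 1) => X)) _ _ (fun x => rfl)).symm

/-- all transversals of `W` are in `A` -/
def Tr {V : Type} {κ s : ℕ} (A : (Fin κ → V) → Prop) (W : Fin κ → Fin s → V) : Prop :=
  ∀ α : Fin κ → Fin s, A (fun i => W i (α i))

/-- the fibre of `A` over the entries of `x` -/
def Fib {V : Type} {κ s : ℕ} (A : (Fin (κ + 1) → V) → Prop) (x : Fin s → V)
    (w' : Fin κ → V) : Prop := ∀ a, A (Fin.cons (x a) w')

open scoped Classical in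
theorem blow {V : Type} [Fintype V] (hV : 0 < Fintype.card V) (s : ℕ) :
    ∀ (κ : ℕ) (A : (Fin κ → V) → Prop),
      ((#{w : Fin κ → V | A w} : ℝ) / (Fintype.card V : ℝ) ^ κ) ^ (s ^ κ) *
          (Fintype.card V : ℝ) ^ (κ * s) ≤
        (#{W : Fin κ → Fin s → V | Tr A W} : ℝ) := by
  intro κ
  set n : ℝ := (Fintype.card V : ℝ) with hn
  have hn0 : 0 < n := by rw [hn]; exact_mod_cast hV
  induction κ with
  | zero =>
    intro A
    have h1 : #{w : Fin 0 → V | A w} = if A default then 1 else 0 := by
      rw [Finset.card_filter]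
      simp only [Finset.univ_unique, Finset.sum_singleton]
    have h3 : Tr A (default : Fin 0 → Fin s → V) ↔ A default := by
      have e : ∀ α : Fin 0 → Fin s, (fun i => (default : Fin 0 → Fin s → V) i (α i)) = default :=
        fun α => Subsingleton.elim _ _
      constructor
      · intro h
        have := h default
        rwa [e] at this
      · intro h α
        rw [e]
        exact h
    have h2 : #{W : Fin 0 → Fin s → V | Tr A W} = if A default then 1 else 0 := by
      rw [Finset.card_filter]
      simp only [Finset.univ_unique, Finset.sum_singleton, h3]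
    rw [h1, h2]
    simp
  | succ κ ih =>
    intro A
    have e1 : #{W : Fin (κ + 1) → Fin s → V | Tr A W} =
        ∑ x : Fin s → V, #{W' : Fin κ → Fin s → V | Tr (Fib A x) W'} := by
      rw [card_cons]
      refine Finset.sum_congr rfl (fun x _ => ?_)
      congr 1
      ext W'
      simp only [Finset.mem_filter, Finset.mem_univ, true_and]
      have key : ∀ α : Fin (κ + 1) → Fin s,
          (fun i => (Fin.cons x W' : Fin (κ + 1) → Fin s → V) i (α i)) =
          Fin.cons (x (α 0)) (fun i => W' i (α i.succ)) := by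
        intro α
        funext i
        refine Fin.cases ?_ (fun i => ?_) i
        · simp
        · simp
      constructor
      · intro h α' a
        have := h (Fin.cons a α')
        rw [key] at this
        simpa using this
      · intro h α
        rw [key]
        exact h (fun i => α i.succ) (α 0)
    have e2 : ∑ x : Fin s → V, #{w' : Fin κ → V | Fib A x w'} =
        ∑ w' : Fin κ → V, (#{x0 : V | A (Fin.cons x0 w')}) ^ s := by
      simp_rw [Finset.card_filter (p := fun w' => Fib A _ w')]
      rw [Finset.sum_comm]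
      refine Finset.sum_congr rfl (fun w' _ => ?_)
      rw [← Finset.card_filter]
      have : (Finset.univ.filter (fun x : Fin s → V => Fib A x w')) =
          Fintype.piFinset (fun _ : Fin s => Finset.univ.filter (fun x0 : V =>
            A (Fin.cons x0 w'))) := by
        ext x
        rw [Fintype.mem_piFinset, Finset.mem_filter]
        simp only [Finset.mem_filter, Finset.mem_univ, true_and]
        exact Iff.rfl
      rw [this, Fintype.card_piFinset]
      simp
    have e3 : ∑ w' : Fin κ → V, #{x0 : V | A (Fin.cons x0 w')} =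
        #{w : Fin (κ + 1) → V | A w} := by
      rw [card_cons]
      simp_rw [Finset.card_filter]
      rw [Finset.sum_comm]
    -- first power mean
    have cκ : ((Finset.univ : Finset (Fin κ → V)).card : ℝ) = n ^ κ := by
      rw [Finset.card_univ, Fintype.card_fun, Fintype.card_fin]; push_cast; rfl
    have cs : ((Finset.univ : Finset (Fin s → V)).card : ℝ) = n ^ s := by
      rw [Finset.card_univ, Fintype.card_fun, Fintype.card_fin]; push_cast; rfl
    have p1 := Real.pow_arith_mean_le_arith_mean_pow (Finset.univ : Finset (Fin κ → V))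
      (fun _ => 1 / n ^ κ) (fun w' => (#{x0 : V | A (Fin.cons x0 w')} : ℝ))
      (fun _ _ => by positivity)
      (by rw [Finset.sum_const, nsmul_eq_mul, cκ]; field_simp) (fun _ _ => by positivity) s
    rw [← Finset.mul_sum, ← Finset.mul_sum] at p1
    have p2 := Real.pow_arith_mean_le_arith_mean_pow (Finset.univ : Finset (Fin s → V))
      (fun _ => 1 / n ^ s) (fun x => (#{w' : Fin κ → V | Fib A x w'} : ℝ) / n ^ κ)
      (fun _ _ => by positivity)
      (by rw [Finset.sum_const, nsmul_eq_mul, cs]; field_simp) (fun _ _ => by positivity) (s ^ κ)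
    rw [← Finset.mul_sum, ← Finset.mul_sum] at p2
    have e3' : ∑ w' : Fin κ → V, (#{x0 : V | A (Fin.cons x0 w')} : ℝ) =
        (#{w : Fin (κ + 1) → V | A w} : ℝ) := by exact_mod_cast e3
    have e2' : ∑ x : Fin s → V, (#{w' : Fin κ → V | Fib A x w'} : ℝ) =
        ∑ w' : Fin κ → V, (#{x0 : V | A (Fin.cons x0 w')} : ℝ) ^ s := by exact_mod_cast e2
    rw [e3', ← e2'] at p1
    rw [← Finset.sum_div] at p2
    set T : ℝ := ∑ x : Fin s → V, (#{w' : Fin κ → V | Fib A x w'} : ℝ) with hT
    set a : ℝ := (#{w : Fin (κ + 1) → V | A w} : ℝ) with ha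
    have ha0 : 0 ≤ a := by positivity
    -- combine
    have q1 : (a / n ^ (κ + 1)) ^ s ≤ 1 / n ^ s * (T / n ^ κ) := by
      have h3 : (a / n ^ (κ + 1)) ^ s = 1 / n ^ s * (1 / n ^ κ * a) ^ s := by
        rw [← one_div_pow, ← mul_pow]
        congr 1
        rw [pow_succ]
        field_simp
      rw [h3]
      have h4 : 1 / n ^ s * (T / n ^ κ) = 1 / n ^ s * (1 / n ^ κ * T) := by ring
      rw [h4]
      exact mul_le_mul_of_nonneg_left p1 (by positivity)
    have q2 : (a / n ^ (κ + 1)) ^ (s ^ (κ + 1)) ≤
        1 / n ^ s * ∑ x : Fin s → V, ((#{w' : Fin κ → V | Fib A x w'} : ℝ) / n ^ κ) ^ (s ^ κ) := by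
      have h3 : (a / n ^ (κ + 1)) ^ (s ^ (κ + 1)) = ((a / n ^ (κ + 1)) ^ s) ^ (s ^ κ) := by
        rw [← pow_mul]; congr 1; ring
      rw [h3]
      refine (pow_le_pow_left₀ (by positivity) q1 _).trans p2
    have q3 : ∑ x : Fin s → V, ((#{w' : Fin κ → V | Fib A x w'} : ℝ) / n ^ κ) ^ (s ^ κ) *
        n ^ (κ * s) ≤ ((∑ x : Fin s → V, #{W' : Fin κ → Fin s → V | Tr (Fib A x) W'} : ℕ) : ℝ) := by
      push_cast
      exact Finset.sum_le_sum (fun x _ => ih (Fib A x))
    rw [← Finset.sum_mul] at q3
    rw [e1]
    refine le_trans ?_ q3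
    have h5 : n ^ ((κ + 1) * s) = n ^ s * n ^ (κ * s) := by
      rw [← pow_add]; congr 1; ring
    rw [h5, ← mul_assoc]
    refine mul_le_mul_of_nonneg_right ?_ (by positivity)
    calc (a / n ^ (κ + 1)) ^ (s ^ (κ + 1)) * n ^ s
        ≤ (1 / n ^ s * ∑ x : Fin s → V,
            ((#{w' : Fin κ → V | Fib A x w'} : ℝ) / n ^ κ) ^ (s ^ κ)) * n ^ s :=
          mul_le_mul_of_nonneg_right q2 (by positivity)
      _ = _ := by
          rw [one_div, inv_mul_eq_div, div_mul_cancel₀ _ (by positivity)]

end Pool.Agent.H562.RE
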