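import Pool.Agent.H562.RE.Blow

/-!
Greedy counting of cliques in a graph in which all vertices have few non-neighbours.
-/

set_option autoImplicit false

namespace Pool.Agent.H562.RE

open Finset

/-- the entries of `w` are in `U` and pairwise adjacent -/
def CT {V : Type} (G : SimpleGraph V) (U : Finset V) {κ : ℕ} (w : Fin κ → V) : Prop :=
  (∀ i, w i ∈ U) ∧ ∀ i j, i ≠ j → G.Adj (w i) (w j)

/-- `w` is a tuple of pairwise adjacent common neighbours of `u` and `v` -/
def PT {V : Type} (G : SimpleGraph V) (u v : V) {κ : ℕ} (w : Fin κ → V) : Prop :=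
  (∀ i, G.Adj u (w i) ∧ G.Adj v (w i)) ∧ ∀ i j, i ≠ j → G.Adj (w i) (w j)

open scoped Classical in
/-- the number of `κ`-tuples of pairwise adjacent common neighbours of `u` and `v` -/
noncomputable def cnt {V : Type} [Fintype V] (G : SimpleGraph V) (κ : ℕ) (u v : V) : ℕ :=
  #{w : Fin κ → V | PT G u v w}

variable {V : Type} [Fintype V]

open scoped Classical in
theorem greedy (G : SimpleGraph V) (S : Finset V) (D g : ℕ)
    (hD : ∀ x ∈ S, #{y ∈ S | ¬ G.Adj x y} ≤ D) :
    ∀ (κ : ℕ) (U : Finset V), U ⊆ S → κ * D + g ≤ #U + D →
      g ^ κ ≤ #{w : Fin κ → V | CT G U w} := by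
  intro κ
  induction κ with
  | zero =>
    intro U _ _
    have : (Finset.univ.filter (fun w : Fin 0 → V => CT G U w)) = Finset.univ := by
      rw [Finset.filter_eq_self]
      intro w _
      exact ⟨fun i => i.elim0, fun i => i.elim0⟩
    rw [this]
    simp
  | succ κ ih =>
    intro U hU h
    have hU1 : g ≤ #U := by
      have : D ≤ (κ + 1) * D := by nlinarith
      nlinarith
    have hx : ∀ x ∈ U, g ^ κ ≤ #{w' : Fin κ → V | CT G U (Fin.cons x w' : Fin (κ + 1) → V)} := by
      intro x hxU
      have h1 : #U ≤ #{y ∈ U | G.Adj x y} + D := by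
        have h2 := Finset.card_filter_add_card_filter_not (s := U) (p := fun y => G.Adj x y)
        have h3 : #{y ∈ U | ¬ G.Adj x y} ≤ #{y ∈ S | ¬ G.Adj x y} :=
          Finset.card_le_card (Finset.filter_subset_filter _ hU)
        have h4 := hD x (hU hxU)
        omega
      have h5 := ih ({y ∈ U | G.Adj x y}) ((Finset.filter_subset _ _).trans hU) (by nlinarith)
      refine h5.trans (Finset.card_le_card ?_)
      intro w hw
      rw [Finset.mem_filter] at hw ⊢
      obtain ⟨-, hw1, hw2⟩ := hw
      refine ⟨Finset.mem_univ _, ?_, ?_⟩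
      · intro i
        refine Fin.cases ?_ (fun i => ?_) i
        · simpa using hxU
        · have := hw1 i
          rw [Finset.mem_filter] at this
          simpa using this.1
      · intro i j
        refine Fin.cases ?_ (fun i => ?_) i
        · refine Fin.cases ?_ (fun j => ?_) j
          · intro h; exact absurd rfl h
          · intro _
            have := hw1 j
            rw [Finset.mem_filter] at this
            simpa using this.2
        · refine Fin.cases ?_ (fun j => ?_) j
          · intro _
            have := hw1 i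
            rw [Finset.mem_filter] at this
            simpa using this.2.symm
          · intro hij
            simpa using hw2 i j (fun h => hij (by rw [h]))
    rw [card_cons]
    calc g ^ (κ + 1) = g * g ^ κ := by ring
      _ ≤ #U * g ^ κ := Nat.mul_le_mul_right _ hU1
      _ = ∑ _x ∈ U, g ^ κ := by simp
      _ ≤ ∑ x ∈ U, #{w' : Fin κ → V | CT G U (Fin.cons x w' : Fin (κ + 1) → V)} :=
          Finset.sum_le_sum hx
      _ ≤ _ := Finset.sum_le_sum_of_subset (Finset.subset_univ _)

end Pool.Agent.H562.RE
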