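import Pool.Agent.H562.RE.Turan

/-!
A graph with more edges than the Turán graph `T_k(n)` has an edge whose ends have a positive
proportion of all `(k-1)`-tuples as cliques in their common neighbourhood.
-/

set_option autoImplicit false

namespace Pool.Agent.H562.RE

open Finset SimpleGraph

variable {V : Type} [Fintype V]

open scoped Classical in
/-- the set of high minimum degree -/
theorem core_set (G : SimpleGraph V) (k : ℝ) (lam : ℝ) :
    ∃ S : Finset V, (∀ T : Finset V, k * (e2 G T : ℝ) - lam * (#T : ℝ) ^ 2 ≤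
      k * (e2 G S : ℝ) - lam * (#S : ℝ) ^ 2) := by
  obtain ⟨S, -, hS⟩ := Finset.exists_max_image (Finset.univ : Finset (Finset V))
    (fun S => k * (e2 G S : ℝ) - lam * (#S : ℝ) ^ 2) ⟨∅, Finset.mem_univ _⟩
  exact ⟨S, fun T => hS T (Finset.mem_univ _)⟩

open scoped Classical in
/-- degrees in the core set -/
theorem core_degree (G : SimpleGraph V) (k lam : ℝ) (S : Finset V)
    (hk : 0 ≤ k)
    (hS : ∀ T : Finset V, k * (e2 G T : ℝ) - lam * (#T : ℝ) ^ 2 ≤
      k * (e2 G S : ℝ) - lam * (#S : ℝ) ^ 2) (v : V) (hv : v ∈ S) :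
    lam * (2 * (#S : ℝ) - 1) ≤ 2 * k * (#{y ∈ S | G.Adj v y} : ℝ) := by
  have h1 := hS (S.erase v)
  have h2 := e2_erase G S v hv
  have h3 : #(S.erase v) + 1 = #S := Finset.card_erase_add_one hv
  have h4 : (#S : ℝ) = (#(S.erase v) : ℝ) + 1 := by exact_mod_cast h3.symm
  have h5 : (e2 G S : ℝ) ≤ e2 G (S.erase v) + 2 * (#{y ∈ S | G.Adj v y} : ℝ) := by
    exact_mod_cast h2
  have h6 := mul_le_mul_of_nonneg_left h5 hk
  rw [h4] at h1 ⊢
  nlinarith

open scoped Classical in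
/-- two vertices of a clique have many common neighbours if all degrees are large -/
theorem clique_codeg (G : SimpleGraph V) (S K : Finset V) (k : ℕ) (hk : 1 ≤ k)
    (hKS : K ⊆ S) (hK : #K = k + 1) (L B : ℝ)
    (hdeg : ∀ v ∈ K, L ≤ (#{y ∈ S | G.Adj v y} : ℝ))
    (hB : (k : ℝ) * (k + 1) * B ≤ 2 * (k - 1) * ((k + 1) * L) - k * (k - 1) * (#S : ℝ)) :
    ∃ u ∈ K, ∃ v ∈ K, u ≠ v ∧ B ≤ (#{x ∈ S | G.Adj x u ∧ G.Adj x v} : ℝ) := by
  by_contra hcon
  push Not at hcon
  have hk1 : (1 : ℝ) ≤ k := by exact_mod_cast hk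
  -- sums over the vertices
  have s1 : ∑ x ∈ S, (#{v ∈ K | G.Adj x v} : ℝ) = ∑ v ∈ K, (#{y ∈ S | G.Adj v y} : ℝ) := by
    have : ∑ x ∈ S, #{v ∈ K | G.Adj x v} = ∑ v ∈ K, #{y ∈ S | G.Adj v y} := by
      simp_rw [Finset.card_filter]
      rw [Finset.sum_comm]
      refine Finset.sum_congr rfl (fun v _ => Finset.sum_congr rfl (fun x _ => ?_))
      rw [G.adj_comm]
    exact_mod_cast this
  have s2 : ∑ x ∈ S, ((#{v ∈ K | G.Adj x v} : ℝ) * (#{v ∈ K | G.Adj x v} : ℝ) -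
      (#{v ∈ K | G.Adj x v} : ℝ)) =
      ∑ p ∈ K.offDiag, (#{x ∈ S | G.Adj x p.1 ∧ G.Adj x p.2} : ℝ) := by
    have h1 : ∀ x ∈ S, ((#{v ∈ K | G.Adj x v} : ℝ) * (#{v ∈ K | G.Adj x v} : ℝ) -
      (#{v ∈ K | G.Adj x v} : ℝ)) = ((#{p ∈ K.offDiag | G.Adj x p.1 ∧ G.Adj x p.2} : ℕ) : ℝ) := by
      intro x _
      have h2 : ({p ∈ K.offDiag | G.Adj x p.1 ∧ G.Adj x p.2}) =
          ({v ∈ K | G.Adj x v}).offDiag := by
        ext p
        simp only [Finset.mem_filter, Finset.mem_offDiag]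
        tauto
      rw [h2, Finset.offDiag_card]
      have h3 : #{v ∈ K | G.Adj x v} ≤ #{v ∈ K | G.Adj x v} * #{v ∈ K | G.Adj x v} :=
        Nat.le_mul_self _
      push_cast [Nat.cast_sub h3]
      ring
    rw [Finset.sum_congr rfl h1]
    have : ∑ x ∈ S, #{p ∈ K.offDiag | G.Adj x p.1 ∧ G.Adj x p.2} =
        ∑ p ∈ K.offDiag, #{x ∈ S | G.Adj x p.1 ∧ G.Adj x p.2} := by
      simp_rw [Finset.card_filter]
      rw [Finset.sum_comm]
    exact_mod_cast this
  have s3 : ∑ x ∈ S, (2 * ((k : ℝ) - 1) * (#{v ∈ K | G.Adj x v} : ℝ) - k * (k - 1)) ≤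
      ∑ x ∈ S, ((#{v ∈ K | G.Adj x v} : ℝ) * (#{v ∈ K | G.Adj x v} : ℝ) -
      (#{v ∈ K | G.Adj x v} : ℝ)) := by
    refine Finset.sum_le_sum (fun x _ => ?_)
    set j : ℕ := #{v ∈ K | G.Adj x v}
    have : (0 : ℝ) ≤ ((j : ℝ) - (k - 1)) * ((j : ℝ) - k) := by
      rcases Nat.lt_or_ge j k with h | h
      · have h1 : (j : ℝ) + 1 ≤ k := by exact_mod_cast h
        nlinarith
      · have h1 : (k : ℝ) ≤ j := by exact_mod_cast h
        nlinarith
    nlinarith
  rw [s2, Finset.sum_sub_distrib, ← Finset.mul_sum, s1, Finset.sum_const, nsmul_eq_mul] at s3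
  have s4 : ((k : ℝ) + 1) * L ≤ ∑ v ∈ K, (#{y ∈ S | G.Adj v y} : ℝ) := by
    calc ((k : ℝ) + 1) * L = ∑ _v ∈ K, L := by
          rw [Finset.sum_const, hK, nsmul_eq_mul]; push_cast; ring
      _ ≤ _ := Finset.sum_le_sum hdeg
  have hcard : #K.offDiag = (k + 1) * k := by
    rw [Finset.offDiag_card, hK]
    have : (k + 1) * (k + 1) = (k + 1) * k + (k + 1) := by ring
    omega
  have hne : K.offDiag.Nonempty := by
    rw [← Finset.card_pos, hcard]; positivity
  have s5 : ∑ p ∈ K.offDiag, (#{x ∈ S | G.Adj x p.1 ∧ G.Adj x p.2} : ℝ) <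
      (k : ℝ) * (k + 1) * B := by
    calc ∑ p ∈ K.offDiag, (#{x ∈ S | G.Adj x p.1 ∧ G.Adj x p.2} : ℝ) < ∑ _p ∈ K.offDiag, B := by
          refine Finset.sum_lt_sum_of_nonempty hne (fun p hp => ?_)
          rw [Finset.mem_offDiag] at hp
          exact hcon p.1 hp.1 p.2 hp.2.1 hp.2.2
      _ = _ := by
          rw [Finset.sum_const, hcard, nsmul_eq_mul]; push_cast; ring
  have s6 : 2 * ((k : ℝ) - 1) * (((k : ℝ) + 1) * L) ≤
      2 * ((k : ℝ) - 1) * ∑ v ∈ K, (#{y ∈ S | G.Adj v y} : ℝ) :=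
    mul_le_mul_of_nonneg_left s4 (by linarith)
  nlinarith

theorem heavy_ineq (k m ε L : ℝ) (hk : 2 ≤ k) (hm : 0 ≤ m) (hε0 : 0 < ε)
    (hε : ε * (k ^ 2 * (k + 1)) = 1) (hL : 2 * k * L = (k - 1 - ε) * (2 * m - 1)) :
    k * (k + 1) * ((k - 2) * (m - L) + (ε * m - k)) ≤
      2 * (k - 1) * ((k + 1) * L) - k * (k - 1) * m := by
  have hk0 : 0 < 2 * k := by linarith
  refine le_of_mul_le_mul_left ?_ hk0
  have h1 : 2 * k * (2 * (k - 1) * ((k + 1) * L) - k * (k - 1) * m) -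
      2 * k * (k * (k + 1) * ((k - 2) * (m - L) + (ε * m - k))) =
      (2 * k * L) * ((k + 1) * (k ^ 2 - 2)) - (2 * k ^ 2 * m * (k ^ 2 - 3) +
        2 * (ε * (k ^ 2 * (k + 1))) * m - 2 * k ^ 3 * (k + 1)) := by ring
  have h2 : (2 * k * L) * ((k + 1) * (k ^ 2 - 2)) - (2 * k ^ 2 * m * (k ^ 2 - 3) +
        2 * (ε * (k ^ 2 * (k + 1))) * m - 2 * k ^ 3 * (k + 1)) =
      2 * m - (k ^ 2 - 1) * (k ^ 2 - 2) - (ε * (k ^ 2 * (k + 1)) - 2 * (ε * (k + 1))) * (2 * m - 1)
        + 2 * k ^ 3 * (k + 1) + 2 * m * (1 - ε * (k ^ 2 * (k + 1))) := by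
    rw [hL]; ring
  rw [hε] at h2
  have h3 : 0 < ε * (k + 1) := by positivity
  have h4 : ε * (k + 1) ≤ 1 / 4 := by
    have : ε * (k + 1) * 4 ≤ ε * (k + 1) * k ^ 2 := by
      apply mul_le_mul_of_nonneg_left _ h3.le
      nlinarith
    have h5 : ε * (k + 1) * k ^ 2 = 1 := by linear_combination hε
    linarith
  have h5 : 0 ≤ ε * (k + 1) * m := by positivity
  have h6 : (k ^ 2 - 1) * (k ^ 2 - 2) ≤ 2 * k ^ 3 * (k + 1) := by
    have : 0 ≤ k ^ 3 := by positivity
    nlinarith [sq_nonneg (k ^ 2), sq_nonneg k, mul_nonneg this (by linarith : (0 : ℝ) ≤ k - 2)]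
  nlinarith

set_option maxHeartbeats 4000000 in
open scoped Classical in
/-- A graph with more edges than the Turán graph has an edge whose ends have a positive
proportion of all `(k-1)`-tuples as cliques in their common neighbourhood. -/
theorem heavy (k : ℕ) (hk : 1 ≤ k) :
    ∃ γ : ℝ, 0 < γ ∧ ∃ n1 : ℕ, ∀ (V : Type) [Fintype V] (G : SimpleGraph V),
      n1 ≤ Fintype.card V →
      #(turanGraph (Fintype.card V) k).edgeFinset < #G.edgeFinset →
      ∃ u v, G.Adj u v ∧ γ * (Fintype.card V : ℝ) ^ (k - 1) ≤ (cnt G (k - 1) u v : ℝ) := by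
  rcases Nat.lt_or_ge k 2 with hk2 | hk2
  · -- `k = 1`
    obtain rfl : k = 1 := by omega
    refine ⟨1, one_pos, 0, fun V _ G _ hlt => ?_⟩
    have hpos : 0 < #G.edgeFinset := by omega
    obtain ⟨e, he⟩ := Finset.card_pos.mp hpos
    rw [mem_edgeFinset] at he
    induction e with
    | h u v =>
      rw [mem_edgeSet] at he
      refine ⟨u, v, he, ?_⟩
      have : cnt G 0 u v = 1 := by
        unfold cnt
        have h1 : (Finset.univ.filter (fun w : Fin 0 → V => PT G u v w)) = Finset.univ := by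
          rw [Finset.filter_eq_self]
          intro w _
          exact ⟨fun i => i.elim0, fun i => i.elim0⟩
        rw [h1]
        simp
      rw [show (1 - 1 : ℕ) = 0 from rfl, this]
      simp
  · -- `k ≥ 2`
    have hkR : (2 : ℝ) ≤ k := by exact_mod_cast hk2
    set ε : ℝ := 1 / ((k : ℝ) ^ 2 * (k + 1)) with hεd
    have hden : (0 : ℝ) < (k : ℝ) ^ 2 * (k + 1) := by positivity
    have hε0 : 0 < ε := by rw [hεd]; positivity
    have hε1 : ε * ((k : ℝ) ^ 2 * (k + 1)) = 1 := by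
      rw [hεd]; field_simp
    have hεs : ε ≤ 1 / 12 := by
      have h1 : (12 : ℝ) ≤ (k : ℝ) ^ 2 * (k + 1) := by nlinarith
      have h2 : ε * 12 ≤ ε * ((k : ℝ) ^ 2 * (k + 1)) := mul_le_mul_of_nonneg_left h1 hε0.le
      linarith
    refine ⟨(ε ^ 2 / 4) ^ (k - 1), by positivity, ⌈8 * ((k : ℝ) + 1) ^ 3 / ε ^ 2⌉₊, ?_⟩
    intro V _ G hn hlt
    set n : ℕ := Fintype.card V with hnd
    have hnR : 8 * ((k : ℝ) + 1) ^ 3 / ε ^ 2 ≤ n := Nat.ceil_le.mp hn
    have hb1 : 8 * ((k : ℝ) + 1) ^ 3 ≤ ε ^ 2 * n := by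
      have h := (div_le_iff₀ (by positivity : (0 : ℝ) < ε ^ 2)).mp hnR
      linarith
    have hk3 : (k : ℝ) ^ 3 ≤ ((k : ℝ) + 1) ^ 3 :=
      pow_le_pow_left₀ (by positivity) (by linarith) 3
    have hk31 : (k : ℝ) + 1 ≤ ((k : ℝ) + 1) ^ 3 := by
      have : (1 : ℝ) ≤ ((k : ℝ) + 1) ^ 2 := by nlinarith
      nlinarith
    have hn0 : (0 : ℝ) ≤ n := by positivity
    have hb2 : 8 * ((k : ℝ) + 1) ^ 3 ≤ ε * n := by
      have : ε ^ 2 * n ≤ ε * n := by
        apply mul_le_mul_of_nonneg_right _ hn0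
        nlinarith
      linarith
    have hn1 : (1 : ℝ) ≤ n := by
      have : ε * n ≤ 1 * n := mul_le_mul_of_nonneg_right (by linarith) hn0
      linarith
    set lam : ℝ := (k : ℝ) - 1 - ε with hlam
    obtain ⟨S, hS⟩ := core_set G k lam
    set m : ℕ := #S with hmd
    have hm0 : (0 : ℝ) ≤ m := by positivity
    have hdeg : ∀ v ∈ S, lam * (2 * (m : ℝ) - 1) ≤ 2 * k * (#{y ∈ S | G.Adj v y} : ℝ) :=
      fun v hv => core_degree G k lam S (by positivity) hS v hv
    -- the value on the whole vertex set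
    have hU := hS Finset.univ
    have hlow := turan_lower n k hk
    have hlow' : ((k : ℝ) - 1) * (n : ℝ) ^ 2 ≤ k * (e2 G Finset.univ : ℝ) + (k : ℝ) ^ 3 := by
      have h1 : (k - 1) * n ^ 2 + 2 * k ≤ k * e2 G Finset.univ + k ^ 3 + 2 * k := by
        rw [e2_univ]
        have h2 : 2 * k * (#(turanGraph n k).edgeFinset + 1) ≤ 2 * k * #G.edgeFinset :=
          Nat.mul_le_mul_left _ hlt
        have h3 : k * (2 * #G.edgeFinset) = 2 * k * #G.edgeFinset := by ring
        rw [h3]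
        nlinarith
      have h4 : (k - 1) * n ^ 2 ≤ k * e2 G Finset.univ + k ^ 3 := by omega
      have h5 : (((k - 1 : ℕ) : ℝ)) = (k : ℝ) - 1 := by
        rw [Nat.cast_sub hk]; simp
      rw [← h5]
      exact_mod_cast h4
    rw [Finset.card_univ, ← hnd] at hU
    have hval : ε * (n : ℝ) ^ 2 - (k : ℝ) ^ 3 ≤ k * (e2 G S : ℝ) - lam * (m : ℝ) ^ 2 := by
      refine le_trans ?_ hU
      have e : lam * (n : ℝ) ^ 2 = ((k : ℝ) - 1) * (n : ℝ) ^ 2 - ε * (n : ℝ) ^ 2 := by
        rw [hlam]; ring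
      rw [e]; linarith
    -- the core set is large
    have hm1 : ε / 2 * n ≤ m := by
      by_contra hcon
      push Not at hcon
      have h1 : (e2 G S : ℝ) ≤ (m : ℝ) ^ 2 := by exact_mod_cast e2_le G S
      have h2 : (k : ℝ) * (e2 G S : ℝ) ≤ k * (m : ℝ) ^ 2 :=
        mul_le_mul_of_nonneg_left h1 (by positivity)
      have h3 : ε * (n : ℝ) ^ 2 - (k : ℝ) ^ 3 ≤ (1 + ε) * (m : ℝ) ^ 2 := by
        have e : lam * (m : ℝ) ^ 2 = k * (m : ℝ) ^ 2 - (1 + ε) * (m : ℝ) ^ 2 := by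
          rw [hlam]; ring
        rw [e] at hval
        linarith
      have h4 : (m : ℝ) ^ 2 ≤ (ε / 2 * n) ^ 2 := pow_le_pow_left₀ hm0 hcon.le 2
      have h5 : (1 + ε) * (m : ℝ) ^ 2 ≤ 2 * (ε / 2 * n) ^ 2 := by
        have h51 : (1 + ε) * (m : ℝ) ^ 2 ≤ 2 * (m : ℝ) ^ 2 :=
          mul_le_mul_of_nonneg_right (by linarith) (by positivity)
        linarith
      have h6 : 2 * (ε / 2 * (n : ℝ)) ^ 2 = (ε / 2) * (ε * (n : ℝ) ^ 2) := by ring
      have h7 : (ε / 2) * (ε * (n : ℝ) ^ 2) ≤ (1 / 2) * (ε * (n : ℝ) ^ 2) := by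
        apply mul_le_mul_of_nonneg_right _ (by positivity)
        linarith
      have h8 : 8 * ((k : ℝ) + 1) ^ 3 ≤ ε * (n : ℝ) ^ 2 := by
        have : ε * n ≤ ε * (n : ℝ) ^ 2 := by
          apply mul_le_mul_of_nonneg_left _ hε0.le
          nlinarith
        linarith
      have : (0 : ℝ) < ((k : ℝ) + 1) ^ 3 := by positivity
      linarith
    -- more edges than the Turán graph inside the core set
    have hedge : #(turanGraph #S k).edgeFinset <
        #(G.comap (Subtype.val : {x // x ∈ S} → V)).edgeFinset := by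
      by_cases hSu : S = Finset.univ
      · have h1 := e2_comap G S
        rw [hSu] at h1
        have h2 := e2_univ G
        rw [h1] at h2
        have h3 : #(Finset.univ : Finset V) = n := by rw [Finset.card_univ]
        have h4 : #(turanGraph #S k).edgeFinset = #(turanGraph n k).edgeFinset := by
          have : #S = n := by rw [hSu, h3]
          rw [card_edgeFinset_turanGraph, card_edgeFinset_turanGraph, this]
        rw [h4]
        subst hSu
        omega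
      · have hmn : m + 1 ≤ n := by
          have : S ⊂ Finset.univ := Finset.ssubset_univ_iff.mpr hSu
          have h1 := Finset.card_lt_card this
          rw [Finset.card_univ] at h1
          omega
        have hmn' : (m : ℝ) + 1 ≤ n := by exact_mod_cast hmn
        have h1 : ((k : ℝ) - 1) * (m : ℝ) ^ 2 < k * (e2 G S : ℝ) := by
          have h2 : (m : ℝ) ^ 2 ≤ ((n : ℝ) - 1) ^ 2 := pow_le_pow_left₀ hm0 (by linarith) 2
          have h3 : ε * (2 * n - 1) ≤ ε * ((n : ℝ) ^ 2 - (m : ℝ) ^ 2) := by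
            apply mul_le_mul_of_nonneg_left _ hε0.le
            nlinarith
          have h4 : (k : ℝ) ^ 3 < ε * (2 * n - 1) := by
            have e : ε * (2 * (n : ℝ) - 1) = 2 * (ε * n) - ε := by ring
            rw [e]; linarith
          rw [hlam] at hval
          have e : (k : ℝ) * (e2 G S : ℝ) - ((k : ℝ) - 1 - ε) * (m : ℝ) ^ 2 =
            k * (e2 G S : ℝ) - ((k : ℝ) - 1) * (m : ℝ) ^ 2 + ε * (m : ℝ) ^ 2 := by ring
          rw [e] at hval
          have e' : ε * ((n : ℝ) ^ 2 - (m : ℝ) ^ 2) = ε * (n : ℝ) ^ 2 - ε * (m : ℝ) ^ 2 := by ring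
          rw [e'] at h3
          linarith
        have h2 : 2 * k * #(turanGraph m k).edgeFinset ≤ (k - 1) * m ^ 2 :=
          mul_card_edgeFinset_turanGraph_le
        have h3 : (k - 1) * m ^ 2 < k * e2 G S := by
          have h5 : (((k - 1 : ℕ) : ℝ)) = (k : ℝ) - 1 := by
            rw [Nat.cast_sub hk]; simp
          rw [← h5] at h1
          exact_mod_cast h1
        rw [e2_comap] at h3
        have h4 : 2 * k * #(turanGraph m k).edgeFinset <
            2 * k * #(G.comap (Subtype.val : {x // x ∈ S} → V)).edgeFinset := by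
          calc 2 * k * #(turanGraph m k).edgeFinset ≤ (k - 1) * m ^ 2 := h2
            _ < _ := h3
            _ = _ := by ring
        exact Nat.lt_of_mul_lt_mul_left h4
    obtain ⟨K, hKS, hK, hKc⟩ := turan_clique G S k hedge
    -- two vertices of the clique with many common neighbours
    set L : ℝ := lam * (2 * (m : ℝ) - 1) / (2 * k) with hL
    have hkp : (0 : ℝ) < 2 * k := by positivity
    have hL' : 2 * (k : ℝ) * L = ((k : ℝ) - 1 - ε) * (2 * (m : ℝ) - 1) := by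
      rw [hL, hlam]; field_simp
    have hineq := heavy_ineq (k : ℝ) (m : ℝ) ε L hkR hm0 hε0 hε1 hL'
    have hdegL : ∀ v ∈ S, L ≤ (#{y ∈ S | G.Adj v y} : ℝ) := by
      intro v hv
      rw [hL, div_le_iff₀ hkp]
      have := hdeg v hv
      linarith
    obtain ⟨u, huK, v, hvK, huv, hB⟩ := clique_codeg G S K k hk hKS hK L
      (((k : ℝ) - 2) * (m - L) + (ε * m - k)) (fun v hv => hdegL v (hKS hv)) hineq
    refine ⟨u, v, hKc u huK v hvK huv, ?_⟩
    -- greedy count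
    set D : ℕ := ⌊(m : ℝ) - L⌋₊ with hDd
    set g : ℕ := ⌊ε * (m : ℝ) - k⌋₊ with hgd
    have hεm : 2 * ((k : ℝ) + 1) ^ 3 ≤ ε * m := by
      have h1 : ε * (ε / 2 * n) ≤ ε * m := mul_le_mul_of_nonneg_left hm1 hε0.le
      have e : ε * (ε / 2 * (n : ℝ)) = (ε ^ 2 * n) / 2 := by ring
      rw [e] at h1
      have : (0 : ℝ) < ((k : ℝ) + 1) ^ 3 := by positivity
      linarith
    have hg0 : 0 ≤ ε * (m : ℝ) - k := by linarith
    have hDall : ∀ x ∈ S, #{y ∈ S | ¬ G.Adj x y} ≤ D := by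
      intro x hx
      apply Nat.le_floor
      have h1 := Finset.card_filter_add_card_filter_not (s := S) (p := fun y => G.Adj x y)
      have h2 : (#{y ∈ S | G.Adj x y} : ℝ) + (#{y ∈ S | ¬ G.Adj x y} : ℝ) = m := by
        rw [hmd]; exact_mod_cast h1
      have h3 := hdegL x hx
      linarith
    have hmL : 0 ≤ (m : ℝ) - L := by
      have h1 : lam * (2 * (m : ℝ) - 1) ≤ 2 * k * m := by
        have e : 2 * (k : ℝ) * m - lam * (2 * (m : ℝ) - 1) =
          2 * m + 2 * (ε * m) + (k - 1 - ε) := by rw [hlam]; ring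
        have : 0 ≤ ε * (m : ℝ) := by positivity
        linarith
      have : L ≤ m := by
        rw [hL, div_le_iff₀ hkp]
        linarith
      linarith
    have hDle : (D : ℝ) ≤ m - L := Nat.floor_le hmL
    have hgle : (g : ℝ) ≤ ε * m - k := Nat.floor_le hg0
    have hcond : (k - 1) * D + g ≤ #{x ∈ S | G.Adj x u ∧ G.Adj x v} + D := by
      have h1 : ((k : ℝ) - 2) * D ≤ ((k : ℝ) - 2) * (m - L) :=
        mul_le_mul_of_nonneg_left hDle (by linarith)
      have h2 : (((k - 1 : ℕ) : ℝ)) * D + g ≤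
          (#{x ∈ S | G.Adj x u ∧ G.Adj x v} : ℝ) + D := by
        rw [Nat.cast_sub hk]
        push_cast
        linarith
      exact_mod_cast h2
    have hgr := greedy G S D g hDall (k - 1) ({x ∈ S | G.Adj x u ∧ G.Adj x v})
      (Finset.filter_subset _ _) hcond
    have hsub : #{w : Fin (k - 1) → V | CT G ({x ∈ S | G.Adj x u ∧ G.Adj x v}) w} ≤
        cnt G (k - 1) u v := by
      unfold cnt
      refine Finset.card_le_card (fun w hw => ?_)
      rw [Finset.mem_filter] at hw ⊢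
      refine ⟨Finset.mem_univ _, ?_, hw.2.2⟩
      intro i
      have := hw.2.1 i
      rw [Finset.mem_filter] at this
      exact ⟨this.2.1.symm, this.2.2.symm⟩
    have hfin : (ε ^ 2 / 4 * (n : ℝ)) ≤ g := by
      have h1 : ε * (m : ℝ) - k < g + 1 := Nat.lt_floor_add_one _
      have h2 : ε * (ε / 2 * n) ≤ ε * m := mul_le_mul_of_nonneg_left hm1 hε0.le
      have e : ε * (ε / 2 * (n : ℝ)) = (ε ^ 2 * n) / 2 := by ring
      rw [e] at h2
      have e' : ε ^ 2 / 4 * (n : ℝ) = (ε ^ 2 * n) / 4 := by ring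
      rw [e']
      linarith
    calc (ε ^ 2 / 4) ^ (k - 1) * (n : ℝ) ^ (k - 1) = (ε ^ 2 / 4 * (n : ℝ)) ^ (k - 1) := by
          rw [mul_pow]
      _ ≤ (g : ℝ) ^ (k - 1) := pow_le_pow_left₀ (by positivity) hfin _
      _ ≤ (cnt G (k - 1) u v : ℝ) := by exact_mod_cast hgr.trans hsub

end Pool.Agent.H562.RE
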