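import Pool.Agent.H562.RE.Upper2

/-!
Lower bound for the extremal number of the join of a graph with a complete multipartite graph,
and the chromatic number of that join.
-/

set_option autoImplicit false

namespace Pool.Agent.H562.RE

open Finset SimpleGraph

/-- the inclusion of the join with one part fewer -/
def inc {α : Type} {κ s : ℕ} (x : α ⊕ (Fin κ × Fin s)) : α ⊕ (Fin (κ + 1) × Fin s) :=
  match x with
  | Sum.inl a => Sum.inl a
  | Sum.inr p => Sum.inr (Fin.castSucc p.1, p.2)

theorem inc_injective {α : Type} {κ s : ℕ} :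
    Function.Injective (inc : α ⊕ (Fin κ × Fin s) → α ⊕ (Fin (κ + 1) × Fin s)) := by
  rintro (a | ⟨i, a⟩) (b | ⟨j, b⟩) h
  · simpa [inc] using h
  · simp [inc] at h
  · simp [inc] at h
  · simpa [inc] using h

theorem inc_adj {α : Type} (H : SimpleGraph α) {κ s : ℕ} (x y : α ⊕ (Fin κ × Fin s))
    (h : (JG H κ s).Adj x y) : (JG H (κ + 1) s).Adj (inc x) (inc y) := by
  rcases x with a | ⟨i, a⟩ <;> rcases y with b | ⟨j, b⟩
  · exact h
  · trivial
  · trivial
  · change Fin.castSucc i ≠ Fin.castSucc j
    intro h'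
    exact h (Fin.castSucc_injective _ h')

theorem inc_last {α : Type} (H : SimpleGraph α) {κ s : ℕ} (x : α ⊕ (Fin κ × Fin s)) (b : Fin s) :
    (JG H (κ + 1) s).Adj (inc x) (Sum.inr (Fin.last κ, b)) := by
  rcases x with a | ⟨i, a⟩
  · trivial
  · exact (Fin.castSucc_lt_last i).ne

theorem inc_ne_last {α : Type} {κ s : ℕ} (x : α ⊕ (Fin κ × Fin s)) (b : Fin s) :
    inc x ≠ Sum.inr (Fin.last κ, b) := by
  rcases x with a | ⟨i, a⟩
  · simp [inc]
  · intro h
    have := Sum.inr_injective h
    exact (Fin.castSucc_lt_last i).ne (congrArg Prod.fst this)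

/-- If the vertices of the join outside `U` are properly coloured with at most `κ` colours then
`H` embeds into `U`. -/
theorem embD {α : Type} (H : SimpleGraph α) (s : ℕ) (e : α → Fin s)
    (he : Function.Injective e) :
    ∀ (κ : ℕ) (U : Set (α ⊕ (Fin κ × Fin s))) (col : α ⊕ (Fin κ × Fin s) → ℕ) (T : Finset ℕ),
      #T ≤ κ → (∀ x, x ∉ U → col x ∈ T) →
      (∀ x y, x ∉ U → y ∉ U → (JG H κ s).Adj x y → col x ≠ col y) →
      ∃ φ : α → α ⊕ (Fin κ × Fin s), Function.Injective φ ∧ (∀ x, φ x ∈ U) ∧
        ∀ x y, H.Adj x y → (JG H κ s).Adj (φ x) (φ y) := by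
  intro κ
  induction κ with
  | zero =>
    intro U col T hT hU _
    refine ⟨Sum.inl, Sum.inl_injective, fun x => ?_, fun x y h => h⟩
    by_contra hx
    have h1 := hU _ hx
    have h2 : T = ∅ := Finset.card_eq_zero.mp (by omega)
    rw [h2] at h1
    exact absurd h1 (Finset.notMem_empty _)
  | succ κ ih =>
    intro U col T hT hU hcol
    by_cases hlast : ∃ b : Fin s, (Sum.inr (Fin.last κ, b) : α ⊕ (Fin (κ + 1) × Fin s)) ∉ U
    · obtain ⟨b, hb⟩ := hlast
      set t := col (Sum.inr (Fin.last κ, b)) with ht
      have htT : t ∈ T := hU _ hb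
      obtain ⟨φ, h1, h2, h3⟩ := ih {x | inc x ∈ U} (fun x => col (inc x)) (T.erase t)
        (by rw [Finset.card_erase_of_mem htT]; omega)
        (fun x hx => by
          have hx' : inc x ∉ U := hx
          rw [Finset.mem_erase]
          exact ⟨hcol _ _ hx' hb (inc_last H x b), hU _ hx'⟩)
        (fun x y hx hy hxy => hcol _ _ hx hy (inc_adj H x y hxy))
      exact ⟨fun x => inc (φ x), fun x y h => h1 (inc_injective h), fun x => h2 x,
        fun x y h => inc_adj H _ _ (h3 x y h)⟩
    · push Not at hlast
      rcases T.eq_empty_or_nonempty with hTe | ⟨t, htT⟩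
      · refine ⟨Sum.inl, Sum.inl_injective, fun x => ?_, fun x y h => h⟩
        by_contra hx
        have h1 := hU _ hx
        rw [hTe] at h1
        exact absurd h1 (Finset.notMem_empty _)
      · obtain ⟨φ, h1, h2, h3⟩ := ih {x | inc x ∈ U ∨ col (inc x) = t} (fun x => col (inc x))
          (T.erase t) (by rw [Finset.card_erase_of_mem htT]; omega)
          (fun x hx => by
            have hx' : ¬ (inc x ∈ U ∨ col (inc x) = t) := hx
            push Not at hx'
            rw [Finset.mem_erase]
            exact ⟨hx'.2, hU _ hx'.1⟩)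
          (fun x y hx hy hxy => by
            have hx' : ¬ (inc x ∈ U ∨ col (inc x) = t) := hx
            have hy' : ¬ (inc y ∈ U ∨ col (inc y) = t) := hy
            push Not at hx' hy'
            exact hcol _ _ hx'.1 hy'.1 (inc_adj H x y hxy))
        classical
        refine ⟨fun x => if inc (φ x) ∈ U then inc (φ x) else Sum.inr (Fin.last κ, e x),
          ?_, ?_, ?_⟩
        · intro x y h
          dsimp only at h
          by_cases hx : inc (φ x) ∈ U <;> by_cases hy : inc (φ y) ∈ U
          · rw [if_pos hx, if_pos hy] at h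
            exact h1 (inc_injective h)
          · rw [if_pos hx, if_neg hy] at h
            exact absurd h (inc_ne_last _ _)
          · rw [if_neg hx, if_pos hy] at h
            exact absurd h.symm (inc_ne_last _ _)
          · rw [if_neg hx, if_neg hy] at h
            have := Sum.inr_injective h
            exact he (congrArg Prod.snd this)
        · intro x
          dsimp only
          by_cases hx : inc (φ x) ∈ U
          · rw [if_pos hx]; exact hx
          · rw [if_neg hx]; exact hlast _
        · intro x y hxy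
          dsimp only
          have hA := inc_adj H _ _ (h3 x y hxy)
          by_cases hx : inc (φ x) ∈ U <;> by_cases hy : inc (φ y) ∈ U
          · rw [if_pos hx, if_pos hy]; exact hA
          · rw [if_pos hx, if_neg hy]; exact inc_last H _ _
          · rw [if_neg hx, if_pos hy]; exact (inc_last H _ _).symm
          · exfalso
            have e1 : inc (φ x) ∈ U ∨ col (inc (φ x)) = t := h2 x
            have e2 : inc (φ y) ∈ U ∨ col (inc (φ y)) = t := h2 y
            have e1' := e1.resolve_left hx
            have e2' := e2.resolve_left hy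
            exact hcol _ _ hx hy hA (e1'.trans e2'.symm)

open scoped Classical in
/-- Lower bound: put an extremal `H`-free graph in the first class of the Turán graph. -/
theorem lower {α : Type} (H : SimpleGraph α) (hH : H ≠ ⊥) (k s : ℕ) (hk : 1 ≤ k)
    (e : α → Fin s) (he : Function.Injective e) (n : ℕ) (hn : 1 ≤ n) :
    #(turanGraph n k).edgeFinset + extremalNumber ((n + k - 1) / k) H ≤
      extremalNumber n (JG H (k - 1) s) := by
  set q := (n + k - 1) / k with hq
  have hqlt : ∀ i : Fin q, i.1 * k < n := by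
    intro i
    have h1 : i.1 + 1 ≤ (n + k - 1) / k := i.2
    have h2 : (i.1 + 1) * k ≤ n + k - 1 :=
      (Nat.mul_le_mul_right k h1).trans (Nat.div_mul_le_self _ _)
    have h3 : (i.1 + 1) * k = i.1 * k + k := by ring
    omega
  let emb : Fin q ↪ Fin n := ⟨fun i => ⟨i.1 * k, hqlt i⟩, fun i j h => by
    have h1 : i.1 * k = j.1 * k := congrArg Fin.val h
    exact Fin.ext (Nat.eq_of_mul_eq_mul_right (by omega) h1)⟩
  obtain ⟨G0, inst, hG0⟩ := exists_isExtremal_free (V := Fin q) hH
  have hG0f : H.Free G0 := hG0.prop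
  have hG0c : #G0.edgeFinset = extremalNumber q H := by
    have := card_edgeFinset_of_isExtremal_free hG0
    rw [Fintype.card_fin] at this
    rw [← this]
  obtain ⟨G1, hG1⟩ : ∃ G1 : SimpleGraph (Fin n), G1 = G0.map emb := ⟨_, rfl⟩
  have hG1adj : ∀ u v, G1.Adj u v → ∃ i j, G0.Adj i j ∧ i.1 * k = u.1 ∧ j.1 * k = v.1 := by
    intro u v h
    rw [hG1, map_adj] at h
    obtain ⟨i, j, h1, h2, h3⟩ := h
    exact ⟨i, j, h1, congrArg Fin.val h2, congrArg Fin.val h3⟩
  have hG1mod : ∀ u v, G1.Adj u v → u.1 % k = 0 := by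
    intro u v h
    obtain ⟨i, j, -, h2, -⟩ := hG1adj u v h
    rw [← h2, Nat.mul_mod_left]
  have hdisj : Disjoint (turanGraph n k) G1 := by
    rw [SimpleGraph.disjoint_left]
    intro u v h1 h2
    rw [turanGraph_adj] at h1
    exact h1 ((hG1mod u v h2).trans (hG1mod v u h2.symm).symm)
  have hG1c : #G1.edgeFinset = #G0.edgeFinset := by
    subst hG1
    rw [← card_edgeFinset_map emb G0]
    exact card_inst _ _ _
  have hcard : ∀ inst : Fintype (turanGraph n k ⊔ G1).edgeSet,
      #(@edgeFinset _ (turanGraph n k ⊔ G1) inst) =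
      #(turanGraph n k).edgeFinset + extremalNumber q H := by
    intro inst
    rw [edgeFinset_sup, Finset.card_union_of_disjoint (disjoint_edgeFinset.mpr hdisj), ← hG0c,
      hG1c]
  have hfree : (JG H (k - 1) s).Free (turanGraph n k ⊔ G1) := by
    rintro ⟨f⟩
    have hfadj : ∀ x y, (JG H (k - 1) s).Adj x y → (turanGraph n k ⊔ G1).Adj (f x) (f y) :=
      fun x y h => f.toHom.map_adj h
    obtain ⟨φ, h1, h2, h3⟩ := embD H s e he (k - 1) {x | (f x).1 % k = 0}
      (fun x => (f x).1 % k) ((Finset.range k).erase 0)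
      (by rw [Finset.card_erase_of_mem (Finset.mem_range.mpr (by omega)), Finset.card_range])
      (fun x hx => by
        rw [Finset.mem_erase, Finset.mem_range]
        exact ⟨hx, Nat.mod_lt _ (by omega)⟩)
      (fun x y hx _ hxy => by
        have h := hfadj x y hxy
        rw [sup_adj] at h
        rcases h with h | h
        · exact turanGraph_adj.mp h
        · exact absurd (hG1mod _ _ h) hx)
    have hG : ∀ x y, H.Adj x y → G1.Adj (f (φ x)) (f (φ y)) := by
      intro x y hxy
      have h := hfadj _ _ (h3 x y hxy)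
      rw [sup_adj] at h
      rcases h with h | h
      · have e1 : (f (φ x)).1 % k = 0 := h2 x
        have e2 : (f (φ y)).1 % k = 0 := h2 y
        exact absurd (e1.trans e2.symm) (turanGraph_adj.mp h)
      · exact h
    apply hG0f
    have hlt : ∀ u : Fin n, u.1 / k < q := by
      intro u
      rw [hq]
      have h1 : u.1 / k * k ≤ u.1 := Nat.div_mul_le_self _ _
      have h2 : u.1 < n := u.2
      have h3 : (u.1 / k + 1) * k ≤ n + k - 1 := by
        have : (u.1 / k + 1) * k = u.1 / k * k + k := by ring
        omega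
      exact (Nat.le_div_iff_mul_le (by omega)).mpr h3
    refine ⟨⟨⟨fun x => ⟨(f (φ x)).1 / k, hlt _⟩, ?_⟩, ?_⟩⟩
    · intro x y hxy
      obtain ⟨i, j, hij, hi, hj⟩ := hG1adj _ _ (hG x y hxy)
      have e1 : (⟨(f (φ x)).1 / k, hlt _⟩ : Fin q) = i := by
        apply Fin.ext
        change (f (φ x)).1 / k = i.1
        rw [← hi]; exact Nat.mul_div_cancel _ (by omega)
      have e2 : (⟨(f (φ y)).1 / k, hlt _⟩ : Fin q) = j := by
        apply Fin.ext
        change (f (φ y)).1 / k = j.1
        rw [← hj]; exact Nat.mul_div_cancel _ (by omega)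
      rw [e1, e2]
      exact hij
    · intro x y hxy
      have hxy' : (f (φ x)).1 / k = (f (φ y)).1 / k := congrArg Fin.val hxy
      have e1 : (f (φ x)).1 % k = 0 := h2 x
      have e2 : (f (φ y)).1 % k = 0 := h2 y
      have e3 := Nat.div_add_mod (f (φ x)).1 k
      have e4 := Nat.div_add_mod (f (φ y)).1 k
      have e5 : (f (φ x)).1 = (f (φ y)).1 := by
        rw [← e3, ← e4, hxy', e1, e2]
      exact h1 (f.injective (Fin.ext e5))
  have h := card_edgeFinset_le_extremalNumber hfree
  rw [Fintype.card_fin, hcard _] at h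
  exact h

/-- the chromatic number of the join -/
theorem chrom {α : Type} (H : SimpleGraph α) (hH : H.Colorable 2) (u v : α) (huv : H.Adj u v)
    (κ s : ℕ) (hs : 0 < s) : (JG H κ s).chromaticNumber = ((κ + 2 : ℕ) : ℕ∞) := by
  apply le_antisymm
  · rw [chromaticNumber_le_iff_colorable]
    obtain ⟨c⟩ := hH
    obtain ⟨F, hF1, hF2⟩ : ∃ F : α ⊕ (Fin κ × Fin s) → Fin (κ + 2),
        (∀ a, (F (Sum.inl a)).1 = (c a).1) ∧ ∀ p, (F (Sum.inr p)).1 = p.1.1 + 2 :=
      ⟨Sum.elim (fun a => ⟨(c a).1, by omega⟩) (fun p => ⟨p.1.1 + 2, by omega⟩),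
        fun _ => rfl, fun _ => rfl⟩
    refine ⟨Coloring.mk F ?_⟩
    rintro (a | p) (b | q) h h'
    · have h1 : H.Adj a b := h
      have h2 := c.valid h1
      have h3 := congrArg Fin.val h'
      rw [hF1, hF1] at h3
      exact h2 (Fin.ext h3)
    · have h3 := congrArg Fin.val h'
      rw [hF1, hF2] at h3
      omega
    · have h3 := congrArg Fin.val h'
      rw [hF1, hF2] at h3
      omega
    · have h3 := congrArg Fin.val h'
      rw [hF2, hF2] at h3
      have h1 : p.1 ≠ q.1 := h
      exact h1 (Fin.ext (by omega))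
  · refine le_chromaticNumber_of_pairwise_adj (ι := Bool ⊕ Fin κ) ?_ (fun x => match x with
      | Sum.inl true => (Sum.inl u : α ⊕ (Fin κ × Fin s))
      | Sum.inl false => Sum.inl v
      | Sum.inr i => Sum.inr (i, ⟨0, hs⟩)) ?_
    · simp [Nat.card_eq_fintype_card]
      omega
    · rintro (x | i) (y | j) hne
      · cases x <;> cases y
        · exact absurd rfl hne
        · exact huv.symm
        · exact huv
        · exact absurd rfl hne
      · cases x <;> trivial
      · cases y <;> trivial
      · intro h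
        exact hne (congrArg Sum.inr h)

end Pool.Agent.H562.RE
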