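import Pool.Agent.H562.RE.Greedy

/-!
Turán's theorem inside vertex sets, and the size of the Turán graph up to a constant.
-/

set_option autoImplicit false

namespace Pool.Agent.H562.RE

open Finset SimpleGraph

theorem card_inst {V : Type} (G : SimpleGraph V) (i1 i2 : Fintype G.edgeSet) :
    #(@edgeFinset V G i1) = #(@edgeFinset V G i2) := by
  rw [Subsingleton.elim i1 i2]

/-- number of edges of the Turán graph -/
theorem turan_lower (n k : ℕ) (hk : 1 ≤ k) :
    (k - 1) * n ^ 2 ≤ 2 * k * #(turanGraph n k).edgeFinset + k ^ 3 + 2 * k := by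
  rw [card_edgeFinset_turanGraph]
  have hρ : n % k < k := Nat.mod_lt _ hk
  set ρ := n % k with hρd
  have hρn : ρ ≤ n := Nat.mod_le _ _
  have h1 : (n ^ 2 - ρ ^ 2) * (k - 1) <
      2 * k * ((n ^ 2 - ρ ^ 2) * (k - 1) / (2 * k) + 1) := by
    have := Nat.lt_mul_div_succ ((n ^ 2 - ρ ^ 2) * (k - 1)) (show 0 < 2 * k by omega)
    simpa using this
  have h2 : n ^ 2 = (n ^ 2 - ρ ^ 2) + ρ ^ 2 := by
    have : ρ ^ 2 ≤ n ^ 2 := Nat.pow_le_pow_left hρn 2
    omega
  have h3 : (k - 1) * n ^ 2 = (n ^ 2 - ρ ^ 2) * (k - 1) + (k - 1) * ρ ^ 2 := by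
    conv_lhs => rw [h2]
    ring
  have h4 : (k - 1) * ρ ^ 2 ≤ k ^ 3 := by
    calc (k - 1) * ρ ^ 2 ≤ k * k ^ 2 :=
          Nat.mul_le_mul (Nat.sub_le _ _) (Nat.pow_le_pow_left hρ.le 2)
      _ = k ^ 3 := by ring
  rw [h3]
  have h5 : 2 * k * ((n ^ 2 - ρ ^ 2) * (k - 1) / (2 * k) + 1) =
      2 * k * ((n ^ 2 - ρ ^ 2) * (k - 1) / (2 * k)) + 2 * k := by ring
  have h6 : 2 * k * ((n ^ 2 - ρ ^ 2) * (k - 1) / (2 * k)) ≤
      2 * k * ((n ^ 2 - ρ ^ 2) * (k - 1) / (2 * k) + ρ.choose 2) :=
    Nat.mul_le_mul_left _ (Nat.le_add_right _ _)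
  omega

variable {V : Type} [Fintype V]

open scoped Classical in
/-- twice the number of edges inside `S` -/
noncomputable def e2 (G : SimpleGraph V) (S : Finset V) : ℕ := ∑ x ∈ S, #{y ∈ S | G.Adj x y}

open scoped Classical in
theorem e2_univ (G : SimpleGraph V) : e2 G Finset.univ = 2 * #G.edgeFinset := by
  rw [← sum_degrees_eq_twice_card_edges]
  unfold e2
  refine Finset.sum_congr rfl (fun x _ => ?_)
  rw [← card_neighborFinset_eq_degree, neighborFinset_eq_filter]

open scoped Classical in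
theorem e2_le (G : SimpleGraph V) (S : Finset V) : e2 G S ≤ #S ^ 2 := by
  unfold e2
  calc ∑ x ∈ S, #{y ∈ S | G.Adj x y} ≤ ∑ _x ∈ S, #S :=
        Finset.sum_le_sum (fun x _ => Finset.card_filter_le _ _)
    _ = #S ^ 2 := by rw [Finset.sum_const, smul_eq_mul]; ring

open scoped Classical in
theorem e2_erase (G : SimpleGraph V) (S : Finset V) (v : V) (hv : v ∈ S) :
    e2 G S ≤ e2 G (S.erase v) + 2 * #{y ∈ S | G.Adj v y} := by
  unfold e2
  rw [← Finset.add_sum_erase S _ hv]
  have h1 : ∀ x ∈ S.erase v, #{y ∈ S | G.Adj x y} ≤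
      #{y ∈ S.erase v | G.Adj x y} + (if G.Adj v x then 1 else 0) := by
    intro x _
    have : ({y ∈ S | G.Adj x y}) ⊆ {y ∈ S.erase v | G.Adj x y} ∪ (if G.Adj v x then {v} else ∅) := by
      intro y hy
      rw [Finset.mem_filter] at hy
      rw [Finset.mem_union, Finset.mem_filter, Finset.mem_erase]
      by_cases hyv : y = v
      · right
        subst hyv
        rw [if_pos hy.2.symm]
        exact Finset.mem_singleton_self _
      · left
        exact ⟨⟨hyv, hy.1⟩, hy.2⟩
    refine (Finset.card_le_card this).trans ((Finset.card_union_le _ _).trans ?_)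
    gcongr
    split_ifs <;> simp
  have h2 : ∑ x ∈ S.erase v, (if G.Adj v x then 1 else 0) ≤ #{y ∈ S | G.Adj v y} := by
    rw [← Finset.card_filter]
    exact Finset.card_le_card (Finset.filter_subset_filter _ (Finset.erase_subset _ _))
  have h3 := Finset.sum_le_sum h1
  rw [Finset.sum_add_distrib] at h3
  omega

open scoped Classical in
theorem e2_comap (G : SimpleGraph V) (S : Finset V) :
    e2 G S = 2 * #(G.comap (Subtype.val : {x // x ∈ S} → V)).edgeFinset := by
  rw [← sum_degrees_eq_twice_card_edges]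
  unfold e2
  rw [← Finset.sum_coe_sort S (fun x => #{y ∈ S | G.Adj x y})]
  refine Finset.sum_congr rfl (fun x _ => ?_)
  rw [← card_neighborFinset_eq_degree, neighborFinset_eq_filter]
  symm
  refine Finset.card_bij (fun y _ => y.1) ?_ ?_ ?_
  · intro y hy
    rw [Finset.mem_filter] at hy ⊢
    exact ⟨y.2, by simpa using hy.2⟩
  · intro y _ y' _ h
    exact Subtype.ext h
  · intro y hy
    rw [Finset.mem_filter] at hy
    refine ⟨⟨y, hy.1⟩, ?_, rfl⟩
    rw [Finset.mem_filter]
    exact ⟨Finset.mem_univ _, by simpa using hy.2⟩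

open scoped Classical in
/-- a vertex set with more edges than allowed by Turán's theorem contains a clique -/
theorem turan_clique (G : SimpleGraph V) (S : Finset V) (k : ℕ)
    (h : #(turanGraph #S k).edgeFinset <
      #(G.comap (Subtype.val : {x // x ∈ S} → V)).edgeFinset) :
    ∃ K : Finset V, K ⊆ S ∧ #K = k + 1 ∧ ∀ x ∈ K, ∀ y ∈ K, x ≠ y → G.Adj x y := by
  by_contra hcon
  have hcf : (G.comap (Subtype.val : {x // x ∈ S} → V)).CliqueFree (k + 1) := by
    intro t ht
    apply hcon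
    rw [isNClique_iff, isClique_iff] at ht
    refine ⟨t.map ⟨Subtype.val, Subtype.val_injective⟩, ?_, ?_, ?_⟩
    · intro x hx
      rw [Finset.mem_map] at hx
      obtain ⟨y, -, rfl⟩ := hx
      exact y.2
    · rw [Finset.card_map]; exact ht.2
    · intro x hx y hy hxy
      rw [Finset.mem_map] at hx hy
      obtain ⟨x', hx', rfl⟩ := hx
      obtain ⟨y', hy', rfl⟩ := hy
      have := ht.1 (show x' ∈ (t : Set _) from hx') (show y' ∈ (t : Set _) from hy')
        (fun h => hxy (by rw [h]))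
      exact this
  have h1 := hcf.card_edgeFinset_le
  simp only [Fintype.card_coe] at h1
  rw [card_edgeFinset_turanGraph] at h
  omega

end Pool.Agent.H562.RE
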