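import Pool.Agent.H562.RE.Heavy

/-!
Upper bound for the extremal number of the join of a graph with a complete multipartite graph.
-/

set_option autoImplicit false

namespace Pool.Agent.H562.RE

open Finset SimpleGraph

/-- the join of `H` with the complete `κ`-partite graph with parts of size `s` -/
def JG {α : Type} (H : SimpleGraph α) (κ s : ℕ) : SimpleGraph (α ⊕ (Fin κ × Fin s)) where
  Adj x y := match x, y with
    | Sum.inl a, Sum.inl b => H.Adj a b
    | Sum.inl _, Sum.inr _ => True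
    | Sum.inr _, Sum.inl _ => True
    | Sum.inr p, Sum.inr q => p.1 ≠ q.1
  symm := ⟨by
    rintro (a | p) (b | q) h
    · exact (show H.Adj a b from h).symm
    · trivial
    · trivial
    · exact Ne.symm h⟩
  loopless := ⟨by
    rintro (a | p) h
    · exact H.loopless.irrefl a h
    · exact h rfl⟩

variable {V : Type} [Fintype V]

open scoped Classical in
theorem cnt_symm (G : SimpleGraph V) (κ : ℕ) (u v : V) : cnt G κ u v = cnt G κ v u := by
  have h : ∀ w : Fin κ → V, PT G u v w ↔ PT G v u w := by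
    intro w
    constructor
    · rintro ⟨h1, h2⟩; exact ⟨fun i => ⟨(h1 i).2, (h1 i).1⟩, h2⟩
    · rintro ⟨h1, h2⟩; exact ⟨fun i => ⟨(h1 i).2, (h1 i).1⟩, h2⟩
  unfold cnt
  simp only [h]

open scoped Classical in
theorem cnt_mono (G G' : SimpleGraph V) (h : G ≤ G') (κ : ℕ) (u v : V) :
    cnt G κ u v ≤ cnt G' κ u v := by
  unfold cnt
  refine Finset.card_le_card (fun w hw => ?_)
  rw [Finset.mem_filter] at hw ⊢
  exact ⟨Finset.mem_univ _, fun i => ⟨h (hw.2.1 i).1, h (hw.2.1 i).2⟩,
    fun i j hij => h (hw.2.2 i j hij)⟩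

/-- the heavy edges of `G` -/
def HE (G : SimpleGraph V) (κ : ℕ) (t : ℝ) : SimpleGraph V where
  Adj u v := G.Adj u v ∧ t ≤ (cnt G κ u v : ℝ)
  symm := ⟨by
    rintro u v ⟨h1, h2⟩
    exact ⟨h1.symm, by rw [cnt_symm]; exact h2⟩⟩
  loopless := ⟨by
    rintro u ⟨h1, _⟩
    exact G.loopless.irrefl u h1⟩

open scoped Classical in
theorem bad_one {κ s : ℕ} (i : Fin κ) (a b : Fin s) (hab : a ≠ b) :
    #{W : Fin κ → Fin s → V | W i a = W i b} * Fintype.card V ≤ Fintype.card V ^ (κ * s) := by
  have hc : Fintype.card V ^ (κ * s) = #(Finset.univ : Finset (Fin κ → Fin s → V)) := by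
    rw [Finset.card_univ, Fintype.card_fun, Fintype.card_fun, Fintype.card_fin, Fintype.card_fin,
      ← pow_mul, mul_comm]
  rw [hc, ← Finset.card_univ (α := V), ← Finset.card_product]
  refine Finset.card_le_card_of_injOn
    (fun p : (Fin κ → Fin s → V) × V => Function.update p.1 i (Function.update (p.1 i) a p.2))
    (fun _ _ => Finset.mem_coe.mpr (Finset.mem_univ _)) ?_
  rintro ⟨W, v⟩ hW ⟨W', v'⟩ hW' h
  rw [Finset.mem_coe, Finset.mem_product, Finset.mem_filter] at hW hW'
  have hW1 : W i a = W i b := hW.1.2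
  have hW1' : W' i a = W' i b := hW'.1.2
  dsimp only at h
  have hi := congrFun h i
  rw [Function.update_self, Function.update_self] at hi
  have hv : v = v' := by
    have := congrFun hi a
    rwa [Function.update_self, Function.update_self] at this
  have hc : ∀ c, c ≠ a → W i c = W' i c := by
    intro c hca
    have := congrFun hi c
    rwa [Function.update_of_ne hca, Function.update_of_ne hca] at this
  have hWW : W = W' := by
    funext j
    by_cases hj : j = i
    · subst hj
      funext c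
      by_cases hca : c = a
      · rw [hca, hW1, hW1', hc b hab.symm]
      · exact hc c hca
    · have := congrFun h j
      rwa [Function.update_of_ne hj, Function.update_of_ne hj] at this
  rw [hWW, hv]

open scoped Classical in
theorem bad_all (κ s : ℕ) :
    #{W : Fin κ → Fin s → V | ¬ ∀ i, Function.Injective (W i)} * Fintype.card V ≤
      κ * s ^ 2 * Fintype.card V ^ (κ * s) := by
  have hsub : ({W : Fin κ → Fin s → V | ¬ ∀ i, Function.Injective (W i)} : Finset _) ⊆
      (({p : Fin κ × Fin s × Fin s | p.2.1 ≠ p.2.2} : Finset _)).biUnion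
        (fun p => {W : Fin κ → Fin s → V | W p.1 p.2.1 = W p.1 p.2.2}) := by
    intro W hW
    rw [Finset.mem_filter] at hW
    have h := hW.2
    simp only [Function.Injective] at h
    push Not at h
    obtain ⟨i, a, b, h1, h2⟩ := h
    rw [Finset.mem_biUnion]
    refine ⟨(i, a, b), ?_, ?_⟩
    · rw [Finset.mem_filter]; exact ⟨Finset.mem_univ _, h2⟩
    · rw [Finset.mem_filter]; exact ⟨Finset.mem_univ _, h1⟩
  calc #{W : Fin κ → Fin s → V | ¬ ∀ i, Function.Injective (W i)} * Fintype.card V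
      ≤ (∑ p ∈ ({p : Fin κ × Fin s × Fin s | p.2.1 ≠ p.2.2} : Finset _),
          #{W : Fin κ → Fin s → V | W p.1 p.2.1 = W p.1 p.2.2}) * Fintype.card V :=
        Nat.mul_le_mul_right _ ((Finset.card_le_card hsub).trans Finset.card_biUnion_le)
    _ = ∑ p ∈ ({p : Fin κ × Fin s × Fin s | p.2.1 ≠ p.2.2} : Finset _),
          #{W : Fin κ → Fin s → V | W p.1 p.2.1 = W p.1 p.2.2} * Fintype.card V := by
        rw [Finset.sum_mul]
    _ ≤ ∑ _p ∈ ({p : Fin κ × Fin s × Fin s | p.2.1 ≠ p.2.2} : Finset _),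
          Fintype.card V ^ (κ * s) := by
        refine Finset.sum_le_sum (fun p hp => ?_)
        rw [Finset.mem_filter] at hp
        exact bad_one p.1 p.2.1 p.2.2 hp.2
    _ = #({p : Fin κ × Fin s × Fin s | p.2.1 ≠ p.2.2} : Finset _) *
          Fintype.card V ^ (κ * s) := by rw [Finset.sum_const, smul_eq_mul]
    _ ≤ κ * s ^ 2 * Fintype.card V ^ (κ * s) := by
        apply Nat.mul_le_mul_right
        refine (Finset.card_le_univ _).trans (le_of_eq ?_)
        rw [Fintype.card_prod, Fintype.card_prod, Fintype.card_fin, Fintype.card_fin]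
        ring

open scoped Classical in
/-- all but few edges above the Turán number are heavy -/
theorem heavy_edges (k : ℕ) (hk : 1 ≤ k) :
    ∃ γ : ℝ, 0 < γ ∧ ∃ n1 : ℕ, ∀ (V : Type) [Fintype V] (G : SimpleGraph V),
      n1 ≤ Fintype.card V →
      #G.edgeFinset ≤ #(turanGraph (Fintype.card V) k).edgeFinset +
        #(HE G (k - 1) (γ * (Fintype.card V : ℝ) ^ (k - 1))).edgeFinset := by
  obtain ⟨γ, hγ, n1, h⟩ := heavy k hk
  refine ⟨γ, hγ, n1, fun V _ G hn => ?_⟩
  set F := HE G (k - 1) (γ * (Fintype.card V : ℝ) ^ (k - 1)) with hF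
  have h1 : #(G \ F).edgeFinset ≤ #(turanGraph (Fintype.card V) k).edgeFinset := by
    by_contra hcon
    push Not at hcon
    have hcon' : ∀ inst : Fintype (G \ F).edgeSet, #(turanGraph (Fintype.card V) k).edgeFinset <
        #(@edgeFinset V (G \ F) inst) := by
      intro inst
      exact lt_of_lt_of_eq hcon (card_inst _ _ _)
    obtain ⟨u, v, huv, hc⟩ := h V (G \ F) hn (hcon' _)
    rw [sdiff_adj] at huv
    apply huv.2
    refine ⟨huv.1, hc.trans ?_⟩
    exact_mod_cast cnt_mono (G \ F) G sdiff_le _ u v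
  have h2 : #G.edgeFinset ≤ #(G \ F).edgeFinset + #F.edgeFinset := by
    rw [edgeFinset_sdiff]
    exact Finset.card_le_card_sdiff_add_card
  omega

open scoped Classical in
/-- the number of injective blow-ups over a heavy edge -/
theorem good_count (G : SimpleGraph V) (κ s : ℕ) (γ : ℝ) (hγ : 0 < γ) (u v : V)
    (hn : 0 < Fintype.card V)
    (hc : γ * (Fintype.card V : ℝ) ^ κ ≤ (cnt G κ u v : ℝ))
    (hbig : 2 * ((κ : ℝ) * s ^ 2) ≤ γ ^ (s ^ κ) * Fintype.card V) :
    γ ^ (s ^ κ) / 2 * (Fintype.card V : ℝ) ^ (κ * s) ≤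
      (#{W : Fin κ → Fin s → V | Tr (PT G u v) W ∧ ∀ i, Function.Injective (W i)} : ℝ) := by
  set n : ℝ := (Fintype.card V : ℝ) with hnd
  have hn0 : 0 < n := by rw [hnd]; exact_mod_cast hn
  have h1 := blow hn s κ (PT G u v)
  rw [← hnd] at h1
  have h2 : γ ^ (s ^ κ) * n ^ (κ * s) ≤
      (#{W : Fin κ → Fin s → V | Tr (PT G u v) W} : ℝ) := by
    refine le_trans ?_ h1
    apply mul_le_mul_of_nonneg_right _ (by positivity)
    apply pow_le_pow_left₀ hγ.le
    rw [le_div_iff₀ (by positivity)]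
    exact hc
  have h3 : #{W : Fin κ → Fin s → V | Tr (PT G u v) W} ≤
      #{W : Fin κ → Fin s → V | Tr (PT G u v) W ∧ ∀ i, Function.Injective (W i)} +
      #{W : Fin κ → Fin s → V | ¬ ∀ i, Function.Injective (W i)} := by
    refine le_trans (Finset.card_le_card (fun W hW => ?_)) (Finset.card_union_le _ _)
    rw [Finset.mem_filter] at hW
    rw [Finset.mem_union, Finset.mem_filter, Finset.mem_filter]
    by_cases h : ∀ i, Function.Injective (W i)
    · exact Or.inl ⟨Finset.mem_univ _, hW.2, h⟩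
    · exact Or.inr ⟨Finset.mem_univ _, h⟩
  have h4 : (#{W : Fin κ → Fin s → V | ¬ ∀ i, Function.Injective (W i)} : ℝ) * n ≤
      (κ : ℝ) * s ^ 2 * n ^ (κ * s) := by
    rw [hnd]
    exact_mod_cast bad_all (V := V) κ s
  have h5 : (#{W : Fin κ → Fin s → V | ¬ ∀ i, Function.Injective (W i)} : ℝ) ≤
      γ ^ (s ^ κ) / 2 * n ^ (κ * s) := by
    have h6 : (#{W : Fin κ → Fin s → V | ¬ ∀ i, Function.Injective (W i)} : ℝ) * n ≤
        (γ ^ (s ^ κ) / 2 * n ^ (κ * s)) * n := by
      refine h4.trans ?_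
      have : (κ : ℝ) * s ^ 2 * n ^ (κ * s) ≤ (γ ^ (s ^ κ) * n / 2) * n ^ (κ * s) :=
        mul_le_mul_of_nonneg_right (by linarith) (by positivity)
      refine this.trans (le_of_eq (by ring))
    exact le_of_mul_le_mul_right h6 hn0
  have h3' : (#{W : Fin κ → Fin s → V | Tr (PT G u v) W} : ℝ) ≤
      (#{W : Fin κ → Fin s → V | Tr (PT G u v) W ∧ ∀ i, Function.Injective (W i)} : ℝ) +
      (#{W : Fin κ → Fin s → V | ¬ ∀ i, Function.Injective (W i)} : ℝ) := by exact_mod_cast h3
  linarith

end Pool.Agent.H562.RE
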