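import Pool.Agent.H562.RE.Upper

/-!
Upper bound for the extremal number of the join of a graph with a complete multipartite graph.
-/

set_option autoImplicit false

namespace Pool.Agent.H562.RE

open Finset SimpleGraph

variable {V : Type} [Fintype V]

open scoped Classical in
theorem e2_pairs (F : SimpleGraph V) :
    e2 F Finset.univ = #{p : V × V | F.Adj p.1 p.2} := by
  unfold e2
  rw [Finset.card_filter, Fintype.sum_prod_type]
  refine Finset.sum_congr rfl (fun x _ => ?_)
  rw [Finset.card_filter]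

open scoped Classical in
/-- some blow-up is good for a positive proportion of the heavy edges -/
theorem pick (G : SimpleGraph V) (κ s : ℕ) (γ : ℝ) (hγ : 0 < γ) (hn : 0 < Fintype.card V)
    (hbig : 2 * ((κ : ℝ) * s ^ 2) ≤ γ ^ (s ^ κ) * Fintype.card V) (F : SimpleGraph V)
    (hF : F = HE G κ (γ * (Fintype.card V : ℝ) ^ κ)) :
    ∃ W : Fin κ → Fin s → V,
      γ ^ (s ^ κ) / 2 * (#{p : V × V | F.Adj p.1 p.2} : ℝ) ≤
      (#{p : V × V | F.Adj p.1 p.2 ∧ Tr (PT G p.1 p.2) W ∧
        ∀ i, Function.Injective (W i)} : ℝ) := by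
  by_contra hcon
  push Not at hcon
  set n : ℝ := (Fintype.card V : ℝ) with hnd
  have hn0 : 0 < n := by rw [hnd]; exact_mod_cast hn
  have hcard : ((#(Finset.univ : Finset (Fin κ → Fin s → V)) : ℕ) : ℝ) = n ^ (κ * s) := by
    rw [Finset.card_univ, Fintype.card_fun, Fintype.card_fun, Fintype.card_fin,
      Fintype.card_fin, ← pow_mul, mul_comm s κ, hnd]
    push_cast
    rfl
  have hne : (Finset.univ : Finset (Fin κ → Fin s → V)).Nonempty := by
    rw [← Finset.card_pos]
    have : (0 : ℝ) < n ^ (κ * s) := by positivity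
    rw [← hcard] at this
    exact_mod_cast this
  have h1 : ∑ W : Fin κ → Fin s → V, (#{p : V × V | F.Adj p.1 p.2 ∧ Tr (PT G p.1 p.2) W ∧
        ∀ i, Function.Injective (W i)} : ℝ) <
      n ^ (κ * s) * (γ ^ (s ^ κ) / 2 * (#{p : V × V | F.Adj p.1 p.2} : ℝ)) := by
    calc _ < ∑ _W : Fin κ → Fin s → V,
        (γ ^ (s ^ κ) / 2 * (#{p : V × V | F.Adj p.1 p.2} : ℝ)) :=
          Finset.sum_lt_sum_of_nonempty hne (fun W _ => hcon W)
      _ = _ := by rw [Finset.sum_const, nsmul_eq_mul, hcard]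
  have h2 : ∑ W : Fin κ → Fin s → V, #{p : V × V | F.Adj p.1 p.2 ∧ Tr (PT G p.1 p.2) W ∧
        ∀ i, Function.Injective (W i)} =
      ∑ p ∈ ({p : V × V | F.Adj p.1 p.2} : Finset (V × V)),
        #{W : Fin κ → Fin s → V | Tr (PT G p.1 p.2) W ∧ ∀ i, Function.Injective (W i)} := by
    rw [Finset.sum_filter]
    simp_rw [Finset.card_filter]
    rw [Finset.sum_comm]
    refine Finset.sum_congr rfl (fun p _ => ?_)
    by_cases hp : F.Adj p.1 p.2
    · simp [hp]
    · simp [hp]
  have h3 : (#{p : V × V | F.Adj p.1 p.2} : ℝ) * (γ ^ (s ^ κ) / 2 * n ^ (κ * s)) ≤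
      ((∑ p ∈ ({p : V × V | F.Adj p.1 p.2} : Finset (V × V)),
        #{W : Fin κ → Fin s → V | Tr (PT G p.1 p.2) W ∧ ∀ i, Function.Injective (W i)} : ℕ) :
          ℝ) := by
    push_cast
    rw [← nsmul_eq_mul, ← Finset.sum_const]
    refine Finset.sum_le_sum (fun p hp => ?_)
    rw [Finset.mem_filter] at hp
    have hp2 := hp.2
    rw [hF] at hp2
    exact good_count G κ s γ hγ p.1 p.2 hn hp2.2 hbig
  rw [← h2] at h3
  push_cast at h3
  have h4 : (#{p : V × V | F.Adj p.1 p.2} : ℝ) * (γ ^ (s ^ κ) / 2 * n ^ (κ * s)) =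
    n ^ (κ * s) * (γ ^ (s ^ κ) / 2 * (#{p : V × V | F.Adj p.1 p.2} : ℝ)) := by ring
  linarith

open scoped Classical in
/-- the graph of good edges contains no copy of `H` inside the common neighbourhood -/
theorem copy_join {α : Type} (H : SimpleGraph α) (G : SimpleGraph V) (κ s : ℕ)
    (W : Fin κ → Fin s → V) (hinj : ∀ i, Function.Injective (W i))
    (hadj : ∀ i j a b, i ≠ j → G.Adj (W i a) (W j b))
    (f : α → V) (hf : Function.Injective f) (hfH : ∀ x y, H.Adj x y → G.Adj (f x) (f y))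
    (hfW : ∀ x i a, G.Adj (f x) (W i a)) : JG H κ s ⊑ G := by
  refine ⟨⟨⟨fun z => match z with
    | Sum.inl x => f x
    | Sum.inr p => W p.1 p.2, ?_⟩, ?_⟩⟩
  · rintro (x | p) (y | q) h
    · exact hfH x y h
    · exact hfW x q.1 q.2
    · exact (hfW y p.1 p.2).symm
    · exact hadj p.1 q.1 p.2 q.2 h
  · rintro (x | ⟨i, a⟩) (y | ⟨j, b⟩) h
    · exact congrArg Sum.inl (hf h)
    · exact absurd h (hfW x j b).ne
    · exact absurd h (hfW y i a).ne'
    · by_cases hij : i = j
      · subst hij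
        have : a = b := hinj i h
        rw [this]
      · exact absurd h (hadj i j a b hij).ne

open scoped Classical in
/-- Upper bound for graphs without a copy of the join. -/
theorem free_bound {α : Type} (H : SimpleGraph α) (k s : ℕ) (hk : 1 ≤ k)
    (r C : ℝ) (hr : 0 ≤ r) (hC : 0 < C) (n0 : ℕ)
    (hH : ∀ n : ℕ, n0 ≤ n → (extremalNumber n H : ℝ) ≤ C * (n : ℝ) ^ r) :
    ∃ C' : ℝ, 0 < C' ∧ ∃ n1 : ℕ, ∀ (V : Type) [Fintype V] (G : SimpleGraph V),
      n1 ≤ Fintype.card V → (JG H (k - 1) s).Free G →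
      (#G.edgeFinset : ℝ) ≤ #(turanGraph (Fintype.card V) k).edgeFinset +
        C' * (Fintype.card V : ℝ) ^ r := by
  obtain ⟨γ, hγ, n1, hheavy⟩ := heavy_edges k hk
  set c1 : ℝ := γ ^ (s ^ (k - 1)) / 2 with hc1d
  have hc1 : 0 < c1 := by positivity
  refine ⟨(C + (n0 : ℝ) ^ 2) / c1, by positivity,
    max (max n1 1) ⌈(((k - 1 : ℕ) : ℝ) * s ^ 2) / c1⌉₊, fun V _ G hn hfree => ?_⟩
  have hn1 : n1 ≤ Fintype.card V := (le_max_left _ _).trans ((le_max_left _ _).trans hn)
  have hnpos : 1 ≤ Fintype.card V := (le_max_right _ _).trans ((le_max_left _ _).trans hn)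
  have hn2 : (((k - 1 : ℕ) : ℝ) * s ^ 2) / c1 ≤ Fintype.card V :=
    Nat.ceil_le.mp ((le_max_right _ _).trans hn)
  have hnR : (1 : ℝ) ≤ Fintype.card V := by exact_mod_cast hnpos
  have hbig : 2 * (((k - 1 : ℕ) : ℝ) * s ^ 2) ≤ γ ^ (s ^ (k - 1)) * Fintype.card V := by
    rw [div_le_iff₀ hc1] at hn2
    have : γ ^ (s ^ (k - 1)) = 2 * c1 := by rw [hc1d]; ring
    rw [this]
    linarith
  set F := HE G (k - 1) (γ * (Fintype.card V : ℝ) ^ (k - 1)) with hF
  have hle := hheavy V G hn1
  rw [← hF] at hle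
  obtain ⟨W, hW⟩ := pick G (k - 1) s γ hγ (by omega) hbig F hF
  rw [← hc1d] at hW
  -- number of heavy edges
  have hFpairs : 2 * #F.edgeFinset = #{p : V × V | F.Adj p.1 p.2} := by
    rw [← e2_pairs, e2_univ]
  have hgoal : (#F.edgeFinset : ℝ) ≤ (C + (n0 : ℝ) ^ 2) / c1 * (Fintype.card V : ℝ) ^ r := by
    rcases Nat.eq_zero_or_pos
      (#{p : V × V | F.Adj p.1 p.2 ∧ Tr (PT G p.1 p.2) W ∧ ∀ i, Function.Injective (W i)})
      with h0 | hpos
    · -- no good pair at all
      rw [h0] at hW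
      have h1 : (#{p : V × V | F.Adj p.1 p.2} : ℝ) ≤ 0 := by
        by_contra hcon
        push Not at hcon
        have : 0 < c1 * (#{p : V × V | F.Adj p.1 p.2} : ℝ) := by positivity
        simp only [Nat.cast_zero] at hW
        linarith
      have h2 : (2 * #F.edgeFinset : ℝ) ≤ 0 := by
        have : ((2 * #F.edgeFinset : ℕ) : ℝ) = (#{p : V × V | F.Adj p.1 p.2} : ℝ) := by
          rw [hFpairs]
        push_cast at this
        linarith
      have h3 : (0 : ℝ) ≤ (C + (n0 : ℝ) ^ 2) / c1 * (Fintype.card V : ℝ) ^ r := by positivity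
      linarith
    · -- `W` is an injective blow-up
      obtain ⟨p0, hp0⟩ := Finset.card_pos.mp hpos
      rw [Finset.mem_filter] at hp0
      obtain ⟨-, -, hp0T, hinj⟩ := hp0
      have hadj : ∀ i j a b, i ≠ j → G.Adj (W i a) (W j b) := by
        intro i j a b hij
        have h := (hp0T (fun l => if l = i then a else b)).2 i j hij
        simpa [if_neg (Ne.symm hij)] using h
      -- the graph of good edges
      obtain ⟨GW, hGW⟩ : ∃ GW : SimpleGraph V, ∀ u v, GW.Adj u v ↔
          F.Adj u v ∧ Tr (PT G u v) W := ⟨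
        { Adj := fun u v => F.Adj u v ∧ Tr (PT G u v) W
          symm := ⟨by
            rintro u v ⟨h1, h2⟩
            refine ⟨h1.symm, fun α => ?_⟩
            exact ⟨fun i => ⟨((h2 α).1 i).2, ((h2 α).1 i).1⟩, (h2 α).2⟩⟩
          loopless := ⟨by
            rintro u ⟨h1, _⟩
            exact F.loopless.irrefl u h1⟩ }, fun _ _ => Iff.rfl⟩
      obtain ⟨N, hN⟩ : ∃ N : Finset V, ∀ x, x ∈ N ↔ ∀ i a, G.Adj x (W i a) :=
        ⟨Finset.univ.filter (fun x => ∀ i a, G.Adj x (W i a)), fun x => by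
          rw [Finset.mem_filter]; exact ⟨fun h => h.2, fun h => ⟨Finset.mem_univ _, h⟩⟩⟩
      have hGWN : ∀ u v, GW.Adj u v → u ∈ N := by
        intro u v h
        have h2 : Tr (PT G u v) W := ((hGW u v).mp h).2
        rw [hN]
        intro i a
        exact ((h2 (fun _ => a)).1 i).1
      have hX : #{p : V × V | F.Adj p.1 p.2 ∧ Tr (PT G p.1 p.2) W ∧
          ∀ i, Function.Injective (W i)} ≤ e2 GW N := by
        have h1 : #{p : V × V | F.Adj p.1 p.2 ∧ Tr (PT G p.1 p.2) W ∧
          ∀ i, Function.Injective (W i)} ≤ e2 GW Finset.univ := by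
          rw [e2_pairs]
          refine Finset.card_le_card (fun p hp => ?_)
          rw [Finset.mem_filter] at hp ⊢
          exact ⟨Finset.mem_univ _, (hGW _ _).mpr ⟨hp.2.1, hp.2.2.1⟩⟩
        refine h1.trans (le_of_eq ?_)
        unfold e2
        symm
        have h2 : ∀ x, x ∉ N → #{y | GW.Adj x y} = 0 := by
          intro x hx
          rw [Finset.card_eq_zero, Finset.filter_eq_empty_iff]
          intro y _ hxy
          exact hx (hGWN x y hxy)
        rw [← Finset.sum_subset (Finset.subset_univ N) (fun x _ hx => h2 x hx)]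
        refine Finset.sum_congr rfl (fun x _ => ?_)
        congr 1
        ext y
        rw [Finset.mem_filter, Finset.mem_filter]
        constructor
        · rintro ⟨_, h⟩; exact ⟨Finset.mem_univ _, h⟩
        · rintro ⟨_, h⟩; exact ⟨hGWN y x h.symm, h⟩
      have hfreeN : H.Free (GW.comap (Subtype.val : {x // x ∈ N} → V)) := by
        rintro ⟨f⟩
        apply hfree
        refine copy_join H G (k - 1) s W hinj hadj (fun x => (f x).1) ?_ ?_ ?_
        · intro x y h
          exact f.injective (Subtype.ext h)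
        · intro x y h
          have h1 : (GW.comap (Subtype.val : {x // x ∈ N} → V)).Adj (f x) (f y) :=
            f.toHom.map_adj h
          have h2 : F.Adj (f x).1 (f y).1 := ((hGW _ _).mp h1).1
          exact h2.1
        · intro x i a
          exact (hN _).mp (f x).2 i a
      have hNe : (#(GW.comap (Subtype.val : {x // x ∈ N} → V)).edgeFinset : ℝ) ≤
          (C + (n0 : ℝ) ^ 2) * (Fintype.card V : ℝ) ^ r := by
        have hNV : (#N : ℝ) ≤ Fintype.card V := by exact_mod_cast Finset.card_le_univ N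
        have hpow : (1 : ℝ) ≤ (Fintype.card V : ℝ) ^ r := Real.one_le_rpow hnR hr
        rcases Nat.lt_or_ge #N n0 with h | h
        · have h1 : 2 * #(GW.comap (Subtype.val : {x // x ∈ N} → V)).edgeFinset ≤ #N ^ 2 := by
            rw [← e2_comap]; exact e2_le GW N
          have h2 : #N ^ 2 ≤ n0 ^ 2 := Nat.pow_le_pow_left h.le 2
          have h3 : #(GW.comap (Subtype.val : {x // x ∈ N} → V)).edgeFinset ≤ n0 ^ 2 := by omega
          have h4 : (#(GW.comap (Subtype.val : {x // x ∈ N} → V)).edgeFinset : ℝ) ≤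
            (n0 : ℝ) ^ 2 := by exact_mod_cast h3
          have h5 : (n0 : ℝ) ^ 2 * 1 ≤ (n0 : ℝ) ^ 2 * (Fintype.card V : ℝ) ^ r :=
            mul_le_mul_of_nonneg_left hpow (by positivity)
          have h6 : 0 ≤ C * (Fintype.card V : ℝ) ^ r := by positivity
          linarith
        · have h1 := card_edgeFinset_le_extremalNumber hfreeN
          rw [Fintype.card_coe] at h1
          have h2 := hH #N h
          have h3 : (#N : ℝ) ^ r ≤ (Fintype.card V : ℝ) ^ r :=
            Real.rpow_le_rpow (by positivity) hNV hr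
          have h4 : (#(GW.comap (Subtype.val : {x // x ∈ N} → V)).edgeFinset : ℝ) ≤
            (extremalNumber #N H : ℝ) := by exact_mod_cast h1
          have h5 : C * (#N : ℝ) ^ r ≤ C * (Fintype.card V : ℝ) ^ r :=
            mul_le_mul_of_nonneg_left h3 hC.le
          have h6 : 0 ≤ (n0 : ℝ) ^ 2 * (Fintype.card V : ℝ) ^ r := by positivity
          linarith
      rw [e2_comap] at hX
      have hX' : (#{p : V × V | F.Adj p.1 p.2 ∧ Tr (PT G p.1 p.2) W ∧
          ∀ i, Function.Injective (W i)} : ℝ) ≤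
          2 * (#(GW.comap (Subtype.val : {x // x ∈ N} → V)).edgeFinset : ℝ) := by
        exact_mod_cast hX
      have hFp : (#{p : V × V | F.Adj p.1 p.2} : ℝ) = 2 * (#F.edgeFinset : ℝ) := by
        rw [← hFpairs]; push_cast; ring
      rw [hFp] at hW
      rw [div_mul_eq_mul_div, le_div_iff₀ hc1]
      linarith
  have hle' : (#G.edgeFinset : ℝ) ≤ #(turanGraph (Fintype.card V) k).edgeFinset +
      #F.edgeFinset := by exact_mod_cast hle
  linarith

end Pool.Agent.H562.RE
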